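import Pool.Agent.TH15.DFM.Stm
import Pool.Agent.Helper392.Mey.PL

set_option autoImplicit false

/-!
Maurey's inequality for convex functions of Gaussian variables, from the Prekopa-Leindler
inequality.
-/

open MeasureTheory ProbabilityTheory Filter
open scoped ENNReal

namespace Pool.Agent.TH753.DFM

open Pool.TH15.DFM

/-- Two values of the Gaussian density. -/
theorem pdf_mul (x y : ℝ) : gaussianPDF 0 1 x * gaussianPDF 0 1 y =
    gaussianPDF 0 1 ((x + y) / 2) ^ 2 * ENNReal.ofReal (Real.exp (-((x - y) ^ 2 / 4))) := by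
  unfold gaussianPDF
  rw [← ENNReal.ofReal_mul (gaussianPDFReal_nonneg _ _ _),
    ← ENNReal.ofReal_pow (gaussianPDFReal_nonneg _ _ _),
    ← ENNReal.ofReal_mul (pow_nonneg (gaussianPDFReal_nonneg _ _ _) 2)]
  congr 1
  unfold gaussianPDFReal
  have e : ∀ c a b d m : ℝ, a + b = 2 * m + d →
      c * Real.exp a * (c * Real.exp b) = (c * Real.exp m) ^ 2 * Real.exp d := by
    intro c a b d m h
    have h1 : Real.exp a * Real.exp b = Real.exp m ^ 2 * Real.exp d := by
      rw [← Real.exp_add, h, Real.exp_add, two_mul, Real.exp_add]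
      ring
    calc c * Real.exp a * (c * Real.exp b) = c ^ 2 * (Real.exp a * Real.exp b) := by ring
      _ = _ := by rw [h1]; ring
  apply e
  simp only [NNReal.coe_one]
  ring

/-- One dimension. -/
theorem gpl1 (F G : ℝ → ℝ≥0∞) (hF : Measurable F) (hG : Measurable G) (c : ℝ≥0∞)
    (h : ∀ x y, F x * G y ≤ c * ENNReal.ofReal (Real.exp ((x - y) ^ 2 / 4))) :
    (∫⁻ x, F x ∂(gaussianReal 0 1)) * (∫⁻ x, G x ∂(gaussianReal 0 1)) ≤ c := by
  have hd : ∀ f : ℝ → ℝ≥0∞, Measurable f →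
      ∫⁻ x, f x ∂(gaussianReal 0 1) = ∫⁻ x, gaussianPDF 0 1 x * f x := by
    intro f hf
    rw [gaussianReal_of_var_ne_zero 0 one_ne_zero,
      lintegral_withDensity_eq_lintegral_mul _ (measurable_gaussianPDF 0 1) hf]
    rfl
  obtain ⟨q, hq⟩ : ∃ q : ℝ≥0∞, q ^ 2 = c := by
    refine ⟨c ^ (1 / 2 : ℝ), ?_⟩
    rw [← ENNReal.rpow_natCast, ← ENNReal.rpow_mul]
    norm_num
  have hpm := measurable_gaussianPDF 0 1
  have key := Pool.Agent.Helper392.Mey.PL.pl1 (fun x => gaussianPDF 0 1 x * F x)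
    (fun x => gaussianPDF 0 1 x * G x) (fun x => q * gaussianPDF 0 1 x) (hpm.mul hF)
    (hpm.mul hG) (hpm.const_mul q) (by
      intro x y
      calc gaussianPDF 0 1 x * F x * (gaussianPDF 0 1 y * G y)
          = gaussianPDF 0 1 x * gaussianPDF 0 1 y * (F x * G y) := by ring
        _ ≤ gaussianPDF 0 1 x * gaussianPDF 0 1 y *
            (c * ENNReal.ofReal (Real.exp ((x - y) ^ 2 / 4))) := mul_le_mul_right (h x y) _
        _ = c * gaussianPDF 0 1 ((x + y) / 2) ^ 2 *
            (ENNReal.ofReal (Real.exp (-((x - y) ^ 2 / 4))) *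
              ENNReal.ofReal (Real.exp ((x - y) ^ 2 / 4))) := by rw [pdf_mul]; ring
        _ = (q * gaussianPDF 0 1 ((x + y) / 2)) ^ 2 := by
            rw [← ENNReal.ofReal_mul (Real.exp_pos _).le, ← Real.exp_add, neg_add_cancel,
              Real.exp_zero, ENNReal.ofReal_one, mul_one, mul_pow, hq])
  rw [hd F hF, hd G hG]
  refine key.trans (le_of_eq ?_)
  rw [lintegral_const_mul q hpm, lintegral_gaussianPDF_eq_one 0 one_ne_zero, mul_one, hq]

/-- splitting off the first coordinate -/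
noncomputable def ee (M : ℕ) : ((Fin (M + 1)) → ℝ) ≃ᵐ ℝ × (Fin M → ℝ) :=
  MeasurableEquiv.piFinSuccAbove (fun _ : Fin (M + 1) => ℝ) 0

lemma ee_symm_zero (M : ℕ) (x : ℝ) (z : Fin M → ℝ) : (ee M).symm (x, z) 0 = x := by
  simp [ee, MeasurableEquiv.piFinSuccAbove]

lemma ee_symm_succ (M : ℕ) (x : ℝ) (z : Fin M → ℝ) (i : Fin M) :
    (ee M).symm (x, z) i.succ = z i := by
  simp [ee, MeasurableEquiv.piFinSuccAbove]

lemma mp (M : ℕ) : MeasurePreserving (ee M).symm ((gaussianReal 0 1).prod (ga (Fin M)))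
    (ga (Fin (M + 1))) := by
  have h := measurePreserving_piFinSuccAbove (fun _ : Fin (M + 1) => gaussianReal 0 1) 0
  exact h.symm _

instance (ι : Type) [Fintype ι] : IsProbabilityMeasure (ga ι) := by
  unfold ga; infer_instance

lemma lint (M : ℕ) (f : (Fin (M + 1) → ℝ) → ℝ≥0∞) (hf : Measurable f) :
    ∫⁻ x, f x ∂(ga (Fin (M + 1))) =
      ∫⁻ x, ∫⁻ z, f ((ee M).symm (x, z)) ∂(ga (Fin M)) ∂(gaussianReal 0 1) := by
  rw [← (mp M).lintegral_comp hf, lintegral_prod]
  exact (hf.comp (ee M).symm.measurable).aemeasurable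

/-- Dimension `n`. -/
theorem gpln (n : ℕ) : ∀ (F G : (Fin n → ℝ) → ℝ≥0∞), Measurable F → Measurable G →
    ∀ c : ℝ≥0∞,
    (∀ x y, F x * G y ≤ c * ENNReal.ofReal (Real.exp ((∑ i, (x i - y i) ^ 2) / 4))) →
    (∫⁻ x, F x ∂(ga (Fin n))) * (∫⁻ x, G x ∂(ga (Fin n))) ≤ c := by
  induction n with
  | zero =>
    intro F G _ _ c h
    have hu : ga (Fin 0) Set.univ = 1 := measure_univ
    rw [lintegral_unique, lintegral_unique, hu, mul_one, mul_one]
    have h1 : ∀ x y, F x * G y ≤ c := by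
      intro x y
      have h2 := h x y
      simpa only [Finset.univ_eq_empty, Finset.sum_empty, zero_div, Real.exp_zero,
        ENNReal.ofReal_one, mul_one] using h2
    exact h1 _ _
  | succ n ih =>
    intro F G hF hG c h
    have meas : ∀ φ : (Fin (n + 1) → ℝ) → ℝ≥0∞, Measurable φ →
        Measurable fun p : ℝ × (Fin n → ℝ) => φ ((ee n).symm p) :=
      fun φ hφ => hφ.comp (ee n).symm.measurable
    have meas1 : ∀ φ : (Fin (n + 1) → ℝ) → ℝ≥0∞, Measurable φ → ∀ x : ℝ,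
        Measurable fun z : Fin n → ℝ => φ ((ee n).symm (x, z)) :=
      fun φ hφ x => (meas φ hφ).comp measurable_prodMk_left
    rw [lint n F hF, lint n G hG]
    refine gpl1 _ _ (meas F hF).lintegral_prod_right (meas G hG).lintegral_prod_right c ?_
    intro x y
    refine ih _ _ (meas1 F hF x) (meas1 G hG y) _ ?_
    intro z w
    have h1 := h ((ee n).symm (x, z)) ((ee n).symm (y, w))
    rw [Fin.sum_univ_succ] at h1
    simp only [ee_symm_zero, ee_symm_succ] at h1
    rw [add_div, Real.exp_add, ENNReal.ofReal_mul (Real.exp_pos _).le, ← mul_assoc] at h1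
    exact h1

/-- Any finite index set. -/
theorem gpl (ι : Type) [Fintype ι] (F G : (ι → ℝ) → ℝ≥0∞) (hF : Measurable F)
    (hG : Measurable G) (c : ℝ≥0∞)
    (h : ∀ x y, F x * G y ≤ c * ENNReal.ofReal (Real.exp ((∑ i, (x i - y i) ^ 2) / 4))) :
    (∫⁻ x, F x ∂(ga ι)) * (∫⁻ x, G x ∂(ga ι)) ≤ c := by
  let e : Fin (Fintype.card ι) ≃ ι := (Fintype.equivFin ι).symm
  have hmp : MeasurePreserving (MeasurableEquiv.piCongrLeft (fun _ : ι => ℝ) e)
      (ga (Fin (Fintype.card ι))) (ga ι) :=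
    measurePreserving_piCongrLeft (fun _ : ι => gaussianReal 0 1) e
  rw [← hmp.lintegral_comp hF, ← hmp.lintegral_comp hG]
  refine gpln _ _ _ (hF.comp (MeasurableEquiv.measurable _))
    (hG.comp (MeasurableEquiv.measurable _)) c ?_
  intro x y
  have h1 := h (MeasurableEquiv.piCongrLeft (fun _ : ι => ℝ) e x)
    (MeasurableEquiv.piCongrLeft (fun _ : ι => ℝ) e y)
  rw [← Equiv.sum_comp e] at h1
  have h2 : ∀ (x : Fin (Fintype.card ι) → ℝ) (a : Fin (Fintype.card ι)),
      MeasurableEquiv.piCongrLeft (fun _ : ι => ℝ) e x (e a) = x a := by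
    intro x a
    rw [MeasurableEquiv.coe_piCongrLeft]
    exact Equiv.piCongrLeft_apply_apply (fun _ : ι => ℝ) e x a
  simp only [h2] at h1
  exact h1

theorem int_sq (ι : Type) [Fintype ι] (i : ι) : Integrable (fun x : ι → ℝ => x i ^ 2) (ga ι) := by
  have h1 : Integrable (fun x : ℝ => x ^ 2) (gaussianReal 0 1) :=
    (memLp_id_gaussianReal (μ := 0) (v := 1) 2).integrable_sq
  have h2 : MeasurePreserving (Function.eval i) (ga ι) (gaussianReal 0 1) :=
    measurePreserving_eval (fun _ : ι => gaussianReal 0 1) i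
  exact h2.integrable_comp_of_integrable h1

theorem t_T : S_T := by
  intro ι _ u du K l hl hu
  obtain ⟨hc, hdc, hsub, hK⟩ := hu
  have hS0 : ∀ x, 0 ≤ ∑ i, du x i ^ 2 := fun x => Finset.sum_nonneg fun i _ => sq_nonneg _
  have hSc : Continuous fun x => ∑ i, du x i ^ 2 :=
    continuous_finset_sum _ fun i _ => (hdc i).pow 2
  have hSi : Integrable (fun x => ∑ i, du x i ^ 2) (ga ι) := by
    refine Integrable.of_bound hSc.aestronglyMeasurable K (ae_of_all _ fun x => ?_)
    rw [Real.norm_eq_abs, abs_of_nonneg (hS0 x)]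
    exact hK x
  have hab : ∀ a b : ℝ, |a * b| ≤ (a ^ 2 + b ^ 2) / 2 := by
    intro a b
    rw [abs_le]
    constructor <;> nlinarith [sq_nonneg (a - b), sq_nonneg (a + b)]
  have hui : Integrable u (ga ι) := by
    have hbi : Integrable (fun x : ι → ℝ => |u 0| + K / 2 + (∑ i, x i ^ 2) / 2) (ga ι) :=
      (integrable_const _).add ((integrable_finset_sum _ fun i _ => int_sq ι i).div_const 2)
    refine hbi.mono' hc.aestronglyMeasurable (ae_of_all _ fun x => ?_)
    rw [Real.norm_eq_abs]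
    have hb : ∀ y : ι → ℝ, |∑ i, du y i * x i| ≤ K / 2 + (∑ i, x i ^ 2) / 2 := by
      intro y
      calc |∑ i, du y i * x i| ≤ ∑ i, |du y i * x i| := Finset.abs_sum_le_sum_abs _ _
        _ ≤ ∑ i, (du y i ^ 2 + x i ^ 2) / 2 := Finset.sum_le_sum fun i _ => hab _ _
        _ = (∑ i, du y i ^ 2) / 2 + (∑ i, x i ^ 2) / 2 := by
            rw [← Finset.sum_div, Finset.sum_add_distrib, add_div]
        _ ≤ _ := by have := hK y; linarith
    have h1 := hsub x 0
    have h2 := hsub 0 x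
    have e1 : ∑ i, du 0 i * (x i - (0 : ι → ℝ) i) = ∑ i, du 0 i * x i := by
      refine Finset.sum_congr rfl fun i _ => ?_
      rw [Pi.zero_apply, sub_zero]
    have e2 : ∑ i, du x i * ((0 : ι → ℝ) i - x i) = -∑ i, du x i * x i := by
      rw [← Finset.sum_neg_distrib]
      refine Finset.sum_congr rfl fun i _ => ?_
      rw [Pi.zero_apply]; ring
    rw [e1] at h1
    rw [e2] at h2
    have h3 := abs_le.1 (hb 0)
    have h4 := abs_le.1 (hb x)
    have h5 := neg_abs_le (u 0)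
    have h6 := le_abs_self (u 0)
    rw [abs_le]
    constructor <;> linarith
  obtain ⟨v, hv⟩ : ∃ v : (ι → ℝ) → ℝ, v = fun x => l * u x - l ^ 2 * ∑ i, du x i ^ 2 := ⟨_, rfl⟩
  have hvc : Continuous v := by
    rw [hv]
    exact (continuous_const.mul hc).sub (continuous_const.mul hSc)
  have hvi : Integrable v (ga ι) := by
    rw [hv]
    exact (hui.const_mul l).sub (hSi.const_mul (l ^ 2))
  have hvm : ∫ x, v x ∂(ga ι) = l * ∫ x, u x ∂(ga ι) - l ^ 2 * ∫ x, ∑ i, du x i ^ 2 ∂(ga ι) := by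
    rw [hv, integral_sub (hui.const_mul l) (hSi.const_mul (l ^ 2)), integral_const_mul,
      integral_const_mul]
  have key : (∫⁻ x, ENNReal.ofReal (Real.exp (-(l * u x))) ∂(ga ι)) *
      (∫⁻ x, ENNReal.ofReal (Real.exp (v x)) ∂(ga ι)) ≤ 1 := by
    refine gpl ι _ _ (by fun_prop) (by fun_prop) 1 ?_
    intro x y
    rw [one_mul, ← ENNReal.ofReal_mul (Real.exp_pos _).le, ← Real.exp_add]
    refine ENNReal.ofReal_le_ofReal (Real.exp_le_exp.2 ?_)
    have h1 := hsub x y
    have h2 : l * ∑ i, du y i * (y i - x i) - l ^ 2 * ∑ i, du y i ^ 2 ≤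
        (∑ i, (x i - y i) ^ 2) / 4 := by
      rw [Finset.mul_sum, Finset.mul_sum, ← Finset.sum_sub_distrib, Finset.sum_div]
      refine Finset.sum_le_sum fun i _ => ?_
      nlinarith [sq_nonneg (l * du y i - (y i - x i) / 2)]
    have h3 : ∑ i, du y i * (x i - y i) = -∑ i, du y i * (y i - x i) := by
      rw [← Finset.sum_neg_distrib]
      exact Finset.sum_congr rfl fun i _ => by ring
    rw [h3] at h1
    have h4 : l * (u y - u x) ≤ l * ∑ i, du y i * (y i - x i) :=
      mul_le_mul_of_nonneg_left (by linarith) hl.le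
    rw [hv]
    show -(l * u x) + (l * u y - l ^ 2 * ∑ i, du y i ^ 2) ≤ _
    linarith
  have jen : ENNReal.ofReal (Real.exp (∫ x, v x ∂(ga ι))) ≤
      ∫⁻ x, ENNReal.ofReal (Real.exp (v x)) ∂(ga ι) := by
    obtain ⟨m, hm⟩ : ∃ m : ℝ, m = ∫ x, v x ∂(ga ι) := ⟨_, rfl⟩
    rw [← hm]
    have hgi : Integrable (fun x => Real.exp m * (1 + (v x - m))) (ga ι) :=
      ((integrable_const 1).add (hvi.sub (integrable_const m))).const_mul _
    have hg1 : ∫ x, Real.exp m * (1 + (v x - m)) ∂(ga ι) = Real.exp m := by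
      have e1 : ∫ x, (1 + (v x - m)) ∂(ga ι) =
          ∫ _x, (1 : ℝ) ∂(ga ι) + ∫ x, (v x - m) ∂(ga ι) :=
        integral_add (integrable_const 1) (hvi.sub (integrable_const m))
      have e2 : ∫ x, (v x - m) ∂(ga ι) = ∫ x, v x ∂(ga ι) - ∫ _x, m ∂(ga ι) :=
        integral_sub hvi (integrable_const m)
      rw [integral_const_mul, e1, e2, ← hm]
      simp
    have hg2 : ∀ x, Real.exp m * (1 + (v x - m)) ≤ Real.exp (v x) := by
      intro x
      have h1 := Real.add_one_le_exp (v x - m)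
      calc Real.exp m * (1 + (v x - m)) ≤ Real.exp m * Real.exp (v x - m) :=
            mul_le_mul_of_nonneg_left (by linarith) (Real.exp_pos _).le
        _ = _ := by rw [← Real.exp_add]; congr 1; ring
    calc ENNReal.ofReal (Real.exp m)
        = ENNReal.ofReal (∫ x, Real.exp m * (1 + (v x - m)) ∂(ga ι)) := by rw [hg1]
      _ ≤ ENNReal.ofReal (∫⁻ x, ENNReal.ofReal (Real.exp m * (1 + (v x - m))) ∂(ga ι)).toReal := by
          apply ENNReal.ofReal_le_ofReal
          rw [integral_eq_lintegral_pos_part_sub_lintegral_neg_part hgi]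
          linarith [ENNReal.toReal_nonneg
            (a := ∫⁻ x, ENNReal.ofReal (-(Real.exp m * (1 + (v x - m)))) ∂(ga ι))]
      _ ≤ ∫⁻ x, ENNReal.ofReal (Real.exp m * (1 + (v x - m))) ∂(ga ι) :=
          ENNReal.ofReal_toReal_le
      _ ≤ _ := lintegral_mono fun x => ENNReal.ofReal_le_ofReal (hg2 x)
  have h1 : (∫⁻ x, ENNReal.ofReal (Real.exp (-(l * u x))) ∂(ga ι)) *
      ENNReal.ofReal (Real.exp (∫ x, v x ∂(ga ι))) ≤ 1 :=
    (mul_le_mul_right jen _).trans key
  have h2 : ∫⁻ x, ENNReal.ofReal (Real.exp (-(l * u x))) ∂(ga ι) ≤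
      ENNReal.ofReal (Real.exp (-∫ x, v x ∂(ga ι))) := by
    have h3 : ENNReal.ofReal (Real.exp (∫ x, v x ∂(ga ι))) *
        ENNReal.ofReal (Real.exp (-∫ x, v x ∂(ga ι))) = 1 := by
      rw [← ENNReal.ofReal_mul (Real.exp_pos _).le, ← Real.exp_add, add_neg_cancel,
        Real.exp_zero, ENNReal.ofReal_one]
    calc ∫⁻ x, ENNReal.ofReal (Real.exp (-(l * u x))) ∂(ga ι)
        = (∫⁻ x, ENNReal.ofReal (Real.exp (-(l * u x))) ∂(ga ι)) *
          (ENNReal.ofReal (Real.exp (∫ x, v x ∂(ga ι))) *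
            ENNReal.ofReal (Real.exp (-∫ x, v x ∂(ga ι)))) := by rw [h3, mul_one]
      _ = (∫⁻ x, ENNReal.ofReal (Real.exp (-(l * u x))) ∂(ga ι)) *
          ENNReal.ofReal (Real.exp (∫ x, v x ∂(ga ι))) *
            ENNReal.ofReal (Real.exp (-∫ x, v x ∂(ga ι))) := by rw [mul_assoc]
      _ ≤ 1 * ENNReal.ofReal (Real.exp (-∫ x, v x ∂(ga ι))) := by gcongr
      _ = _ := one_mul _
  rw [integral_eq_lintegral_of_nonneg_ae (ae_of_all _ fun x => (Real.exp_pos _).le)
    (by fun_prop)]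
  have h4 := ENNReal.toReal_mono ENNReal.ofReal_ne_top h2
  rw [ENNReal.toReal_ofReal (Real.exp_pos _).le, hvm] at h4
  refine h4.trans (le_of_eq ?_)
  congr 1
  ring

end Pool.Agent.TH753.DFM
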